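import Pool.Agent.Helper47.BSD.LegMain
import Pool.Agent.Helper47.BSD.ExFinal

/-!
# Generalized Legendre Jacobians with large rank over arbitrary function fields

Let `ℓ` be an odd prime, `Q = p ^ f` with `ℓ ∣ Q + 1`, `K` a field of characteristic `p` which
contains the `(Q + 1)`-th roots of unity, `u ∈ K`, and `C` the curve
`y ^ ℓ = x ^ (ℓ - 1) (x + 1) (x + u ^ (Q + 1))`.  If `u` takes every value `η` with
`η ^ (Q + 1) = 1` at exactly one place, and a non-degeneracy condition holds for the `ℓ`-th power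
residue symbols between the zeros and the poles of `u`, then the `(1 - ζ_ℓ)`-Selmer group of the
Jacobian of `C` is freely generated by the `Q + 1` points with abscissa `ζ u`, `ζ ^ (Q + 1) = 1`.
For all `Q`, `ℓ` and `N` there is a finite field `F` of characteristic `p` with infinitely many
such `u` in `F(t)`, with at least `N` zeros and at least `N` poles.
-/

set_option autoImplicit false

namespace Pool.Agent.Results.MP_1d384c_nt.GeneralizedLegendre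

open Module Pool.Agent.Helper47.BSD

theorem result (p ℓ f : ℕ) (hp : p.Prime) (hℓ : ℓ.Prime) (hℓ2 : ℓ ≠ 2) (hf : f ≠ 0)
    (hdvd : ℓ ∣ p ^ f + 1) :
    (∀ (K : Type) [Field K] [CharP K p] (ω u : K), IsPrimitiveRoot ω (p ^ f + 1) →
      (∀ η : K, η ^ (p ^ f + 1) = 1 → OneZero ℓ (u - η)) → ResidueCond ℓ u →
      ResidueCond ℓ u⁻¹ →
      ∃ P : Fin (p ^ f + 1) → Fin 3 → Kˣ,
        (∀ i j, (P i j : K) = ω ^ (i : ℕ) * u - ![0, -1, -u ^ (p ^ f + 1)] j) ∧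
        (∀ i, IsPointValue ℓ ![ℓ - 1, 1, 1] ![0, -1, -u ^ (p ^ f + 1)] (P i)) ∧
        (∀ d, d ∈ selmerSet ℓ ![ℓ - 1, 1, 1] ![0, -1, -u ^ (p ^ f + 1)] ↔
          ∃ (b : Fin (p ^ f + 1) → ℤ) (c : Fin 3 → Kˣ), d = (∏ i, P i ^ b i) * c ^ ℓ) ∧
        (∀ d, d ∈ selmerSet ℓ ![ℓ - 1, 1, 1] ![0, -1, -u ^ (p ^ f + 1)] ↔
          d ∈ descentGroup ℓ ![ℓ - 1, 1, 1] ![0, -1, -u ^ (p ^ f + 1)]) ∧
        ∀ (b : Fin (p ^ f + 1) → ℤ) (c : Fin 3 → Kˣ), ∏ i, P i ^ b i = c ^ ℓ →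
          ∀ i, (ℓ : ℤ) ∣ b i) ∧
    ∀ N : ℕ, ∃ (F : Type) (_ : Field F) (_ : Finite F) (_ : CharP F p) (ω : F),
      IsPrimitiveRoot ω (p ^ f + 1) ∧ ∀ D : ℕ, ∃ u : RatFunc F, D ≤ u.num.natDegree ∧
        (∀ η : RatFunc F, η ^ (p ^ f + 1) = 1 → OneZero ℓ (u - η)) ∧ ResidueCond ℓ u ∧
        ResidueCond ℓ u⁻¹ ∧ AtLeastZeros N u ∧ AtLeastZeros N u⁻¹ := by
  refine ⟨?_, fun N => exists_family p ℓ (p ^ f + 1) N hp hℓ hℓ2 (Nat.succ_ne_zero _) ?_ hdvd⟩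
  swap
  · refine (Nat.Prime.coprime_iff_not_dvd hp).2 fun h => ?_
    have h1 : p ∣ 1 := (Nat.dvd_add_right (dvd_pow_self p hf)).1 h
    exact hp.one_lt.ne' (Nat.dvd_one.1 h1)
  intro K _ _ ω u hω hη hR₁' hR₂'
  have hU : ∀ η : K, η ^ (p ^ f + 1) = 1 → ∀ v w : AbsoluteValue K ℝ, v (u - η) < 1 →
      w (u - η) < 1 → v.IsEquiv w := fun η h => (hη η h).1
  have hE : ∀ η : K, η ^ (p ^ f + 1) = 1 → ∃ v : AbsoluteValue K ℝ, v (u - η) < 1 ∧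
      (∀ z : Kˣ, ∃ (b : ℤ) (x : Kˣ), v z = v (u - η) ^ b * v x ^ ℓ) ∧
        ∀ x : K, v (u - η) ≠ v x ^ ℓ := fun η h => (hη η h).2
  have hu1 : u ≠ 0 := by
    rintro rfl
    obtain ⟨v, hv, -⟩ := hE 1 (one_pow _)
    rw [zero_sub, v.map_neg, map_one] at hv
    exact lt_irrefl _ hv
  have hR₁ : ∀ z : Kˣ, (∀ v : AbsoluteValue K ℝ, v.IsNontrivial → v u ≤ 1 →
        ∃ x : Kˣ, v z = v x ^ ℓ) →
      (∀ v : AbsoluteValue K ℝ, v.IsNontrivial → v u < 1 →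
        ∃ x : v.Completion, algebraMap K v.Completion z = x ^ ℓ) → ∃ x : Kˣ, z = x ^ ℓ := hR₁'
  have hR₂ : ∀ z : Kˣ, (∀ v : AbsoluteValue K ℝ, v.IsNontrivial → 1 ≤ v u →
        ∃ x : Kˣ, v z = v x ^ ℓ) →
      (∀ v : AbsoluteValue K ℝ, v.IsNontrivial → 1 < v u →
        ∃ x : v.Completion, algebraMap K v.Completion z = x ^ ℓ) → ∃ x : Kˣ, z = x ^ ℓ := by
    intro z h1 h2
    refine hR₂' z (fun v hv hle => h1 v hv ?_) fun v hv hlt => h2 v hv ?_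
    · rw [map_inv₀] at hle
      exact (inv_le_one₀ (v.pos hu1)).1 hle
    · rw [map_inv₀] at hlt
      exact (inv_lt_one₀ (v.pos hu1)).1 hlt
  haveI : Fact p.Prime := ⟨hp⟩
  have hleg : IsLeg ℓ ![ℓ - 1, 1, 1] ![0, -1, -u ^ (p ^ f + 1)] (u ^ (p ^ f + 1)) :=
    ⟨rfl, rfl, rfl, rfl, rfl, rfl⟩
  have hω0 : ω ≠ 0 := hω.ne_zero (Nat.succ_ne_zero _)
  have hu0 : u ≠ 0 := by
    rintro rfl
    obtain ⟨v, hv, -⟩ := hE 1 (one_pow _)
    rw [zero_sub, v.map_neg, map_one] at hv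
    exact lt_irrefl _ hv
  have h1 : ∀ i : ℕ, ω ^ i * u + 1 ≠ 0 := by
    intro i h0
    obtain ⟨v, -, -, hv⟩ := hE _ (eta_pow p hp hω i)
    refine hv 0 ?_
    rw [← abs_one_add p hω v i, h0, map_zero, zero_pow hℓ.ne_zero]
  have hz : ∀ i : ℕ, ω ^ i * u ≠ 0 := fun i => mul_ne_zero (pow_ne_zero _ hω0) hu0
  have h2 : ∀ i : ℕ, ω ^ i * u + u ^ (p ^ f + 1) ≠ 0 := by
    intro i
    have h3 : ω ^ i * u + u ^ (p ^ f + 1) = ω ^ i * u * (ω ^ i * u + 1) ^ (p ^ f) := by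
      rw [add_pow_char_pow, one_pow, mul_add, mul_one, ← pow_succ', mul_pow (ω ^ i) u, ← pow_mul,
        mul_comm i, pow_mul, hω.pow_eq_one, one_pow, one_mul, add_comm]
    rw [h3]
    exact mul_ne_zero (hz i) (pow_ne_zero _ (h1 i))
  have hne : ∀ (i : ℕ) (j : Fin 3), ω ^ i * u - ![0, -1, -u ^ (p ^ f + 1)] j ≠ 0 := by
    intro i j
    fin_cases j
    · change ω ^ i * u - 0 ≠ 0
      rw [sub_zero]
      exact hz i
    · change ω ^ i * u - -1 ≠ 0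
      rw [sub_neg_eq_add]
      exact h1 i
    · change ω ^ i * u - -u ^ (p ^ f + 1) ≠ 0
      rw [sub_neg_eq_add]
      exact h2 i
  let P : Fin (p ^ f + 1) → Fin 3 → Kˣ := fun i j => Units.mk0 _ (hne i j)
  have hP : ∀ i j, (P i j : K) = ω ^ (i : ℕ) * u - ![0, -1, -u ^ (p ^ f + 1)] j :=
    fun i j => rfl
  have hval : ∀ i, IsPointValue ℓ ![ℓ - 1, 1, 1] ![0, -1, -u ^ (p ^ f + 1)] (P i) := fun i =>
    isPointValue_point p hp hℓ hdvd hleg (ζ := ω ^ (i : ℕ)) (by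
      rw [← pow_mul, mul_comm, pow_mul, hω.pow_eq_one, one_pow]) (P i) (hP i)
  have ha : ∀ i, (![ℓ - 1, 1, 1] : Fin 3 → ℕ) i ≠ 0 := by
    intro i
    have h2l := hℓ.two_le
    fin_cases i
    · change ℓ - 1 ≠ 0
      omega
    · exact one_ne_zero
    · exact one_ne_zero
  have hmain : ∀ d ∈ selmerSet ℓ ![ℓ - 1, 1, 1] ![0, -1, -u ^ (p ^ f + 1)],
      ∃ (b : Fin (p ^ f + 1) → ℤ) (c : Fin 3 → Kˣ), d = (∏ i, P i ^ b i) * c ^ ℓ :=
    fun d hd => leg_main p hp hℓ hf hdvd hω hleg P hP hR₁ hR₂ hU hE hd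
  have hmem : ∀ i, P i ∈ descentGroup ℓ ![ℓ - 1, 1, 1] ![0, -1, -u ^ (p ^ f + 1)] := fun i =>
    Subgroup.subset_closure (Or.inl (hval i))
  have hback : ∀ (b : Fin (p ^ f + 1) → ℤ) (c : Fin 3 → Kˣ), (∏ i, P i ^ b i) * c ^ ℓ ∈
      descentGroup ℓ ![ℓ - 1, 1, 1] ![0, -1, -u ^ (p ^ f + 1)] := fun b c =>
    mul_mem (prod_mem fun i _ => zpow_mem (hmem i) _) (pow_mem_descentGroup c)
  refine ⟨P, hP, hval, fun d => ⟨hmain d, ?_⟩, fun d => ⟨fun hd => ?_, descentGroup_le_selmer ha⟩,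
    fun b c hbc i => leg_independent p hp hℓ hf hω hleg P hP hE b c hbc i⟩
  · rintro ⟨b, c, rfl⟩
    exact descentGroup_le_selmer ha (hback b c)
  · obtain ⟨b, c, rfl⟩ := hmain d hd
    exact hback b c

end Pool.Agent.Results.MP_1d384c_nt.GeneralizedLegendre
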