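import Pool.Agent.Helper3.TL.DagW2
import Pool.Agent.Helper80.TL.M_NUM
import Pool.Agent.Helper80.SR.Random

/-!
Cutting planes refutations of random 3-CNF formulas: the number of critical roundings with
bounded coefficients against the numbers of uses of the lines on a path.
-/

open Finset Filter Topology
open MP86d903 (Clause Ineq Refutation IsLight vsF card_clause)

namespace Pool.Agent.Results.MP_86d903_lc.LineUses

open Helper3.TL

/-- For all `Δ, η > 0` and all `B` there are `ε, δ > 0` such that, with probability tending to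
one, the following holds for every cutting planes refutation of a random 3-CNF formula with
`⌊Δ n⌋` clauses in `n` variables, every `a`, and every set `X` of fewer than `2 ^ a` of its lines
which contains all critical division steps whose conclusion has small coefficients (up to a
common factor, integers in `[-B, B]`): there is a path of wide lines, none of which is a light
line of `X`, with at least `δ n` critical division steps whose conclusion has not small
coefficients, or such that the sum of `a` and of `min a (log₂ u)` (rounded down), over the numbers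
`u` of uses of the lines on the path, is at least `δ n`. -/
theorem result (Δ η : ℝ) (hΔ : 0 < Δ) (hη : 0 < η) (B : ℕ) :
    ∃ ε δ : ℝ, 0 < ε ∧ 0 < δ ∧ Tendsto (fun n : ℕ =>
      (Nat.card {F : Fin ⌊Δ * n⌋₊ → Clause n // ∀ (π : Refutation F) (a : ℕ)
        (X : Set (Fin π.size)), X.ncard < 2 ^ a →
        (∀ i, π.IsCritical ε η i → IsSmall B (π.line i) → i ∈ X) →
        ∃ p, π.IsPath p ∧
          (∀ i ∈ p, IsWide ε (π.line i) ∧ ¬ (i ∈ X ∧ IsLight ε δ (π.line i))) ∧
          (δ * n ≤ a + (p.map (fun i => min a (Nat.log 2 (uses π i)))).sum ∨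
            δ * n ≤ {i | i ∈ p ∧ π.IsCritical ε η i ∧ ¬ IsSmall B (π.line i)}.ncard)} : ℝ) /
        Nat.card (Fin ⌊Δ * n⌋₊ → Clause n)) atTop (𝓝 1) := by
  classical
  obtain ⟨r, hr, C, hC⟩ := Helper80.SR.exp_whp hΔ
  choose κ hκ using fun D => Dag.hIndW' B D
  obtain ⟨D, ε, δ₀, hε, hδ₀, hev⟩ := Helper80.TL.numericT hr hη hΔ κ
  set δ := δ₀ / 3 with hδdef
  have hδ : 0 < δ := by
    rw [hδdef]
    positivity
  refine ⟨ε, δ, hε, hδ, ?_⟩
  have hlim : Tendsto (fun n : ℕ => 1 - C / (n : ℝ)) atTop (𝓝 1) := by
    have := (tendsto_const_div_atTop_nhds_zero_nat C).const_sub 1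
    simpa using this
  refine tendsto_of_tendsto_of_tendsto_of_le_of_le' hlim tendsto_const_nhds ?_ ?_
  · filter_upwards [hev, eventually_ge_atTop 3] with n hn hn3
    obtain ⟨w, l, h, P, M₀, K, h1, h2, h3, h4, h5, h6, h7, h8, h9, h10, h11, h12⟩ := hn
    have hn0 : (0 : ℝ) < n := by
      have : 0 < n := by omega
      exact_mod_cast this
    have hδn : 0 < δ * n := by positivity
    have hδ2 : δ₀ * n = 3 * (δ * n) := by
      rw [hδdef]
      ring
    set m := ⌊Δ * n⌋₊ with hm
    set Q : (Fin m → Clause n) → Prop := fun F => ∀ (π : Refutation F) (a : ℕ)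
        (X : Set (Fin π.size)), X.ncard < 2 ^ a →
        (∀ i, π.IsCritical ε η i → IsSmall B (π.line i) → i ∈ X) →
        ∃ p, π.IsPath p ∧
          (∀ i ∈ p, IsWide ε (π.line i) ∧ ¬ (i ∈ X ∧ IsLight ε δ (π.line i))) ∧
          (δ * n ≤ a + (p.map (fun i => min a (Nat.log 2 (uses π i)))).sum ∨
            δ * n ≤ {i | i ∈ p ∧ π.IsCritical ε η i ∧ ¬ IsSmall B (π.line i)}.ncard) with hQ
    have hgood : ∀ F : Fin m → Clause n, Helper80.SR.Exp (vsF F) ⌊r * n⌋₊ → Q F := by
      intro F hF π a X hXa hX
      set Hd := univ.filter (fun i : Fin n =>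
        D < (univ.filter (fun c => i ∈ vsF F c)).card) with hHd
      have hcard := Helper80.TL.card_high F D
      rw [← hHd] at hcard
      have hHd' : ((D + 1) * Hd.card : ℝ) ≤ 3 * (Δ * n) := by
        have e1 : (((D + 1) * Hd.card : ℕ) : ℝ) ≤ ((3 * m : ℕ) : ℝ) := by exact_mod_cast hcard
        push_cast at e1
        have e2 : (m : ℝ) ≤ Δ * n := Nat.floor_le (by positivity)
        linarith
      refine Dag.detW F (D := D) (B := B) (κ := κ D) (h := h) (hκ D n m F) hF h1 h2 h3 Hd (h4 _ hHd') ?_
        h5 h6 h7 h8 (by omega) hδn (by linarith) (by linarith) ?_ π a X hXa hX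
      · intro i hi
        by_contra hcon
        rw [not_le] at hcon
        exact hi (mem_filter.mpr ⟨mem_univ _, hcon⟩)
      · refine lt_of_le_of_lt ?_ h12
        have hw8 : 0 ≤ 1 - (w : ℝ) / (8 * n) := by
          have h1 : (w : ℝ) ≤ n := by exact_mod_cast h7
          rw [sub_nonneg, div_le_one (by positivity)]
          linarith
        refine mul_le_mul_of_nonneg_right ?_ (by positivity)
        refine mul_le_mul_of_nonneg_right ?_ (pow_nonneg hw8 _)
        exact Real.rpow_le_rpow_of_exponent_le (by norm_num) (by linarith)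
    have hbad := hC n m ⌊r * n⌋₊ hn3 (Nat.floor_le (by positivity))
      (Nat.floor_le (by positivity))
    have htot : 0 < Fintype.card (Fin m → Clause n) := by
      rw [Fintype.card_fun, card_clause]
      have : 0 < n.choose 3 := Nat.choose_pos hn3
      positivity
    have htot' : (0 : ℝ) < Fintype.card (Fin m → Clause n) := by exact_mod_cast htot
    rw [Nat.card_eq_fintype_card, Nat.card_eq_fintype_card, le_div_iff₀ htot',
      Fintype.card_subtype]
    have hsplit : (univ.filter (fun F : Fin m → Clause n =>
        Helper80.SR.Exp (vsF F) ⌊r * n⌋₊)).card +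
        (univ.filter (fun F : Fin m → Clause n => ¬ Helper80.SR.Exp (vsF F) ⌊r * n⌋₊)).card =
        Fintype.card (Fin m → Clause n) := by
      rw [Finset.card_filter_add_card_filter_not, card_univ]
    have hsub : (univ.filter (fun F : Fin m → Clause n =>
        Helper80.SR.Exp (vsF F) ⌊r * n⌋₊)).card ≤
        (univ.filter (fun F : Fin m → Clause n => Q F)).card := by
      refine card_le_card ?_
      intro F hF
      exact mem_filter.mpr ⟨mem_univ _, hgood F (mem_filter.mp hF).2⟩
    have hsplit' : ((univ.filter (fun F : Fin m → Clause n =>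
        Helper80.SR.Exp (vsF F) ⌊r * n⌋₊)).card : ℝ) +
        (univ.filter (fun F : Fin m → Clause n => ¬ Helper80.SR.Exp (vsF F) ⌊r * n⌋₊)).card =
        Fintype.card (Fin m → Clause n) := by exact_mod_cast hsplit
    have hsub' : ((univ.filter (fun F : Fin m → Clause n =>
        Helper80.SR.Exp (vsF F) ⌊r * n⌋₊)).card : ℝ) ≤
        (univ.filter (fun F : Fin m → Clause n => Q F)).card := by exact_mod_cast hsub
    refine le_trans ?_ hsub'
    linarith
  · filter_upwards with n
    rw [Nat.card_eq_fintype_card, Nat.card_eq_fintype_card]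
    refine div_le_one_of_le₀ ?_ (Nat.cast_nonneg _)
    exact_mod_cast Fintype.card_subtype_le _

end Pool.Agent.Results.MP_86d903_lc.LineUses
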